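import Mathlib
import Pool.Agent.Run7.h103.PF.Meas
import Pool.Agent.Results.MP_e47f08_nt.AlternativePolynomial

set_option autoImplicit false

/-!
# Predicting the digits of `ζ(3)/π³` and `8 G - π⁵/(18 ζ(3)) ± (2/3) π²` in several bases

Let `x 0 = ζ(3)/π³` and let `x 1`, `x 2` be the numbers `8 G - π⁵/(18 ζ(3)) ± (2/3) π²`, where `G` is
Catalan's constant. By the starting files at least two of these three numbers are irrational. Let `F`
be a finite set of pairwise multiplicatively independent bases, for instance `{2, 3, 10}`. We prove that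
at least two of the three numbers have digits which cannot be predicted by automata in all bases of
`F` but one: for every `A` there is `R` such that for `M ≥ R (K + 1)`, for two of the three numbers, in
all bases of `F` but one (which may depend on the number) every automaton with at most `K` states which
reads the digits one by one and predicts the next one makes more than `A log (M / (K + 1))` errors among
the first `M` digits. The digits can be replaced by their differences with arbitrary words of linear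
block complexity. The second part is on the fields generated by such numbers.

The starting result `FiniteStatePredictors` gives, for every base, a bound of the form `c log N` with a
fixed constant `c`, for infinitely many `N` and at most `N ^ θ` states. Here the number of errors is
superlogarithmic, for all `M` and `K` with `M / K` tending to infinity.

Proof. The numbers have simultaneous measures by the starting file `AlternativePolynomial` (and the
transcendence measure of `π`). The numbers which are predictable in two bases of `F` belong, along a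
sequence of scales, to the fields of represented numbers of the starting files `Pool.Agent.TH796.AL`
(subspace theorem with moving forms) for two subspaces of characters with trivial intersection, and
therefore they have simultaneous rational approximations of every order. The representation of numbers
with predicted digits is proved with the terms computed in the starting files `Pool.Agent.R473.TB`.
-/

namespace Pool.Agent.Results.MP_e47f08_nt.PredictorsAllBasesButOne

open Pool.Agent.Run7.h103.PF

/-- `ζ(3)` -/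
noncomputable def zeta3 : ℝ := ∑' j : ℕ, 1 / ((j : ℝ) + 1) ^ 3

/-- Catalan's constant -/
noncomputable def G : ℝ := ∑' j : ℕ, (-1 : ℝ) ^ j / (2 * (j : ℝ) + 1) ^ 2

/-- `x 0 = ζ(3)/π³`, `x 1 = 8 G - π⁵/(18 ζ(3)) + (2/3) π²`, `x 2 = 8 G - π⁵/(18 ζ(3)) - (2/3) π²` -/
noncomputable def x : Fin 3 → ℝ := ![zeta3 / Real.pi ^ 3,
  8 * G - Real.pi ^ 5 / (18 * zeta3) + 2 / 3 * Real.pi ^ 2,
  8 * G - Real.pi ^ 5 / (18 * zeta3) - 2 / 3 * Real.pi ^ 2]

/-- the subgroup of the multiplicative group of `ℚ` generated by `A` -/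
def group (A : Set ℕ) : Subgroup ℚˣ := Subgroup.closure {u | ∃ b ∈ A, ((u : ℚˣ) : ℚ) = b}

/-- the simultaneous measures for `x 0` and one of the other numbers -/
theorem notSim0 (k : Fin 3) (hk : k = 1 ∨ k = 2) : NotSim {0, k} x := by
  obtain ⟨ε, hε, hxk⟩ : ∃ ε : ℝ, (ε = 1 ∨ ε = -1) ∧
      x k = 8 * G - Real.pi ^ 5 / (18 * zeta3) + ε * (2 / 3 * Real.pi ^ 2) := by
    rcases hk with rfl | rfl
    · exact ⟨1, Or.inl rfl, by simp [x]⟩
    · refine ⟨-1, Or.inr rfl, ?_⟩
      simp only [x, Matrix.cons_val]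
      ring
  have hx0 : x 0 = zeta3 / Real.pi ^ 3 := rfl
  obtain ⟨c, hc, h⟩ := (Pool.Agent.Results.MP_e47f08_nt.AlternativePolynomial.result ε hε).1
  obtain ⟨Q, hQ⟩ := exists_nat_ge (1 / c + 1)
  refine ⟨4000, max Q 1, fun q hq p => ?_⟩
  have hq1 : 1 ≤ q := (le_max_right _ _).trans hq
  have hqr : (1 : ℝ) ≤ q := by exact_mod_cast hq1
  have hq0 : (0 : ℝ) < q := by linarith
  have hqQ : 1 / c + 1 ≤ (q : ℝ) := hQ.trans (by exact_mod_cast (le_max_left _ _).trans hq)
  have h2 : 1 < c * q := by
    have : 1 / c < q := by linarith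
    rw [div_lt_iff₀ hc] at this
    linarith
  have h3 : c / ((q : ℝ) * q) ^ 2000 ≤
      max |x 0 - (p 0 : ℝ) / (q : ℝ)| |x k - (p k : ℝ) / (q : ℝ)| := by
    rw [hx0, hxk]
    exact h (p k) (p 0) q q hq1 hq1
  rw [div_le_iff₀ (by positivity)] at h3
  have e3 : ((q : ℝ) * q) ^ 2000 = (q : ℝ) ^ 4000 := by
    rw [← sq, ← pow_mul]
  rw [e3] at h3
  have e2 : ∀ (y : ℝ) (p : ℤ), |(q : ℝ) * y - p| = q * |y - (p : ℝ) / q| := by
    intro y p
    rw [← abs_of_pos hq0, ← abs_mul, abs_of_pos hq0]
    congr 1
    field_simp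
  have h4 : ∀ t : ℝ, c ≤ t * (q : ℝ) ^ 4000 → 1 < q * t * (q : ℝ) ^ 4000 := by
    intro t ht
    calc (1 : ℝ) < c * q := h2
      _ ≤ t * (q : ℝ) ^ 4000 * q := by gcongr
      _ = _ := by ring
  rcases max_choice |x 0 - (p 0 : ℝ) / (q : ℝ)| |x k - (p k : ℝ) / (q : ℝ)| with h5 | h5
  · rw [h5] at h3
    refine ⟨0, by simp, ?_⟩
    rw [e2]
    exact h4 _ h3
  · rw [h5] at h3
    refine ⟨k, by simp, ?_⟩
    rw [e2]
    exact h4 _ h3

/-- the simultaneous measure for `x 1` and `x 2` -/
theorem notSim12 : NotSim {1, 2} x := by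
  obtain ⟨w, Q, h⟩ := pi_sq
  refine ⟨w + 1, max Q (6 * 4 ^ w + 1), fun q hq p => ?_⟩
  have hq1 : Q ≤ q := (le_max_left _ _).trans hq
  have hq2 : 6 * 4 ^ w + 1 ≤ q := (le_max_right _ _).trans hq
  have hqr : 6 * (4 : ℝ) ^ w + 1 ≤ q := by exact_mod_cast hq2
  have h4w : (0 : ℝ) < 4 ^ w := by positivity
  have hq0 : (0 : ℝ) < q := by linarith
  by_contra hcon
  push Not at hcon
  have h1 := hcon 1 (by simp)
  have h2 := hcon 2 (by simp)
  have h3 := h (4 * q) (by omega) (3 * (p 1 - p 2))
  have e1 : ((4 * q : ℕ) : ℝ) * Real.pi ^ 2 - ((3 * (p 1 - p 2) : ℤ) : ℝ) =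
      3 * ((q * x 1 - p 1) - (q * x 2 - p 2)) := by
    have e2 : x 1 - x 2 = 4 / 3 * Real.pi ^ 2 := by
      simp only [x, Matrix.cons_val]
      ring
    have e3 : (q : ℝ) * x 1 - q * x 2 = q * (4 / 3 * Real.pi ^ 2) := by rw [← e2]; ring
    push_cast
    linarith
  rw [e1, abs_mul, abs_of_pos (by norm_num : (0 : ℝ) < 3)] at h3
  have h5 : |(q * x 1 - p 1) - (q * x 2 - p 2)| ≤ |q * x 1 - p 1| + |q * x 2 - p 2| := abs_sub _ _
  have h6 : (|q * x 1 - p 1| + |q * x 2 - p 2|) * (q : ℝ) ^ (w + 1) ≤ 2 := by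
    rw [add_mul]
    linarith
  have h7 : 3 * |(q * x 1 - p 1) - (q * x 2 - p 2)| * ((4 * q : ℕ) : ℝ) ^ w * q ≤ 6 * 4 ^ w := by
    push_cast
    rw [mul_pow]
    calc 3 * |(q * x 1 - p 1) - (q * x 2 - p 2)| * (4 ^ w * (q : ℝ) ^ w) * q
        ≤ 3 * (|q * x 1 - p 1| + |q * x 2 - p 2|) * (4 ^ w * (q : ℝ) ^ w) * q := by gcongr
      _ = 3 * 4 ^ w * ((|q * x 1 - p 1| + |q * x 2 - p 2|) * (q : ℝ) ^ (w + 1)) := by ring
      _ ≤ 3 * 4 ^ w * 2 := by gcongr
      _ = 6 * 4 ^ w := by ring
  have h8 : q < 3 * |(q * x 1 - p 1) - (q * x 2 - p 2)| * ((4 * q : ℕ) : ℝ) ^ w * q := by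
    calc (q : ℝ) = 1 * q := (one_mul _).symm
      _ < _ := mul_lt_mul_of_pos_right h3 hq0
  linarith

/-- the three pairs -/
theorem notSim (i j : Fin 3) (hij : i ≠ j) : NotSim {i, j} x := by
  have hsymm : ∀ i j : Fin 3, ({i, j} : Set (Fin 3)) = {j, i} := fun i j => Set.pair_comm i j
  fin_cases i <;> fin_cases j
  · exact absurd rfl hij
  · exact notSim0 1 (Or.inl rfl)
  · exact notSim0 2 (Or.inr rfl)
  · rw [hsymm]; exact notSim0 1 (Or.inl rfl)
  · exact absurd rfl hij
  · exact notSim12
  · rw [hsymm]; exact notSim0 2 (Or.inr rfl)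
  · rw [hsymm]; exact notSim12
  · exact absurd rfl hij

/-- (1) Let `F` be a finite set of pairwise multiplicatively independent bases and `u_{b,i}` words of
linear block complexity over `{0, ..., b - 1}`. For every `A` there is `R` such that for all `M`, `K` with
`R (K + 1) ≤ M` two of the three numbers `x 0`, `x 1`, `x 2` have the following property: in all bases of
`F` but at most one every predictor with at most `K` states which reads the differences between the
digits of the number and the letters of `u_{b,i}` makes more than `A log (M / (K + 1))` wrong predictions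
among the first `M` places.

(2) Let `a_i` and `b_j` be finitely many bases, such that the subgroups of `ℚˣ` generated by the `a_i`
and by the `b_j` have trivial intersection; let `u_i` and `v_j` be words of linear block complexity over
`{0, ..., a_i - 1}` and `{0, ..., b_j - 1}`, and let `y_i` and `z_j` be real numbers such that two of the
numbers `x 0`, `x 1`, `x 2` are in the field generated by the `y_i` and in the field generated by the
`z_j`. For every `A` there is `R` such that for all `M`, `K` with `R (K + 1) ≤ M` one of the `y_i` (with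
the base `a_i` and `u_i`) or one of the `z_j` (with `b_j` and `v_j`) has this property. -/
theorem result :
    (∀ F : Finset ℕ, (∀ b ∈ F, 2 ≤ b) → (∀ b ∈ F, ∀ c ∈ F, b ≠ c → Independent b c) →
      ∀ (C : ℝ) (u : ℕ → Fin 3 → ℕ → ℤ), (∀ b ∈ F, ∀ i, SimpleWord b C (u b i)) →
      ∀ A : ℝ, ∃ R : ℕ, ∀ M K : ℕ, R * (K + 1) ≤ M →
        ∃ k : Fin 3, ∀ i : Fin 3, i ≠ k → ∃ c : ℕ, ∀ b ∈ F, b ≠ c →
          Unpredictable b (u b i) (x i) M K (A * Real.log (M / (K + 1)))) ∧
    (∀ (κ κ' : Type) [Fintype κ] [Fintype κ'] (a : κ → ℕ) (b : κ' → ℕ), (∀ i, 2 ≤ a i) →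
      (∀ j, 2 ≤ b j) → group (Set.range a) ⊓ group (Set.range b) = ⊥ →
      ∀ (C : ℝ) (u : κ → ℕ → ℤ) (v : κ' → ℕ → ℤ), (∀ i, SimpleWord (a i) C (u i)) →
      (∀ j, SimpleWord (b j) C (v j)) → ∀ (y : κ → ℝ) (z : κ' → ℝ) (k l : Fin 3), k ≠ l →
      x k ∈ Subfield.closure (Set.range y) → x l ∈ Subfield.closure (Set.range y) →
      x k ∈ Subfield.closure (Set.range z) → x l ∈ Subfield.closure (Set.range z) →
      ∀ A : ℝ, ∃ R : ℕ, ∀ M K : ℕ, R * (K + 1) ≤ M →
        (∃ i, Unpredictable (a i) (u i) (y i) M K (A * Real.log (M / (K + 1)))) ∨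
        (∃ j, Unpredictable (b j) (v j) (z j) M K (A * Real.log (M / (K + 1))))) := by
  constructor
  · intro F hF2 hF C u hu A
    obtain ⟨R, hR⟩ := each_set x F hF2 hF u hu A {S | ∃ i j, i ≠ j ∧ S = {i, j}} (by
        rintro S ⟨i, j, hij, rfl⟩
        exact notSim i j hij)
    refine ⟨R, fun M K hMK => ?_⟩
    by_contra hcon
    push Not at hcon
    obtain ⟨i, -, hi⟩ := hcon 0
    obtain ⟨j, hji, hj⟩ := hcon i
    obtain ⟨k, hk, c, hc⟩ := hR M K hMK {i, j} ⟨i, j, hji.symm, rfl⟩
    rcases hk with rfl | hk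
    · obtain ⟨b, hb, hbc, h⟩ := hi c
      exact h (hc b hb hbc)
    · rw [Set.mem_singleton_iff] at hk
      subst hk
      obtain ⟨b, hb, hbc, h⟩ := hj c
      exact h (hc b hb hbc)
  · intro κ κ' _ _ a b ha hb hab C u v hu hv y z k l hkl h1 h2 h3 h4 A
    have hmem : ∀ (F : Subfield ℝ), x k ∈ F → x l ∈ F → ∀ t : Fin 2, x (![k, l] t) ∈ F := by
      intro F hk hl t
      fin_cases t
      · exact hk
      · exact hl
    obtain ⟨R, hR⟩ := several (ι := κ ⊕ κ') (Sum.elim a b)
      (by rintro (i | i); exacts [ha i, hb i]) (Sum.elim u v) (C := C)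
      (by rintro (i | i); exacts [simple_of (hu i), simple_of (hv i)]) (Sum.elim y z) A
      (fun t : Fin 2 => x (![k, l] t)) (by
        obtain ⟨w, Q, h⟩ := notSim k l hkl
        refine ⟨w, Q, fun q hq p => ?_⟩
        obtain ⟨j, hj, h'⟩ := h q hq (fun j => if j = k then p 0 else p 1)
        rcases hj with rfl | hj
        · rw [if_pos rfl] at h'
          exact ⟨0, trivial, h'⟩
        · rw [Set.mem_singleton_iff] at hj
          subst hj
          rw [if_neg hkl.symm] at h'
          exact ⟨1, trivial, h'⟩)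
      (fun _ => Set.range Sum.inl) (fun _ => Set.range Sum.inr) (fun _ => by
        rw [← Set.range_comp, ← Set.range_comp, Sum.elim_comp_inl, Sum.elim_comp_inr]
        exact hab) (fun t => by
        rw [← Set.range_comp, Sum.elim_comp_inl]
        exact hmem _ h1 h2 t) (fun t => by
        rw [← Set.range_comp, Sum.elim_comp_inr]
        exact hmem _ h3 h4 t)
    refine ⟨R, fun M K hMK => ?_⟩
    obtain ⟨i | j, h⟩ := hR M K hMK
    · exact Or.inl ⟨i, unpredictable_of h⟩
    · exact Or.inr ⟨j, unpredictable_of h⟩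

end Pool.Agent.Results.MP_e47f08_nt.PredictorsAllBasesButOne
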