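import Mathlib
import Pool.Agent.Run7.h360.CF.Line

/-!
# The continued fractions and the digits of `ζ(3)/π³` and of `π^i ζ(w)^j`, uniformly in `w`

Question Q1 asks if `ζ(3)/π³` is rational.  We compare, uniformly in `w`, the descriptions of the numbers
`π^i ζ(w)^j`, for integers `i, j`, at every scale; `ζ(3)/π³` is the case `w = 3`, `(i, j) = (-3, 1)`.

Let `y = [a_0; a_1, a_2, …]` be the regular continued fraction of a real number, `q_i` the denominators
of its convergents.  The places `u+1, …, v` are *copied at the price `N`* if, with the exception of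
places up to some `s` with `q_s ≤ e^N q_u`, the partial quotients `a_i` at these places are equal to
the partial quotients `a_{i-d}` for one `d > 0` (`Copied`; the copied part may begin at any earlier
place and may overlap its copy, so that all periodic stretches with a short period are included).  A
number `y` is *simple up to the scale `X` with the parameters `r, K, N`* (`Simple`) if

* after the removal of at most `K` places all stretches of the partial quotients `a_{i+1}` with
  `q_i ≤ e^X` are copied at the price `N`; or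
* for some base `b`, after the removal of at most `K` places all stretches `u+1, …, v ≤ L` of the
  digits, `X ≤ L log b`, are terms of sequences whose power series satisfy modulo `t^(v+1)` an algebraic
  equation of degree `≤ r` with coefficients of degree `≤ k + r u`, `(k+1) log b ≤ N`; or
* the fractional part `z` of `y` satisfies `|P(z)| ≤ e^(-X)` for an integer polynomial `P ≠ 0` of degree
  `≤ r` with coefficients `≤ e^N`.

So `K` is the number of the breaks, `N` the price of the description and `X` the length.  We prove: for all `w ≥ 2`, all integral points `(i, j)`, `(k, l)` which are not proportional,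
`|i|, |j|, |k|, |l| ≤ D`, and all Möbius images `y`, `y'` (with integral coefficients of height `≤ H`) of
`π^i ζ(w)^j` and `π^k ζ(w)^l` which are simple up to `X` with `K`, `K'` breaks at the prices `N`, `N'`

`X ≤ A^(K+K'+1) (N + N' + log H + 1)`,

where `A` depends only on `D` and `r`, and not on `w`, `H` and the Möbius transformations.  So at every scale
`X`, for every `w`, the points `(i, j)` for which `π^i ζ(w)^j` is simple (for instance with few periodic
stretches in the continued fraction, or in the expansion in some base) are on one line; for even `w` it is the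
line of `(-w, 1)`, as `ζ(w)/π^w` is rational.  If `ζ(3)/π³` is a fraction with a denominator `≤ M`, then all
`π^i ζ(3)^j` with `(i, j)` not proportional to `(-3, 1)`, e.g. `ζ(3)`, `ζ(3)/π`, `ζ(3)/π²`, `π ζ(3)` and so
on, are complicated at all scales `X` greater than `A (log M + 1)`: conversely a simple number of this kind at
one scale would give a lower bound for the denominator.

Proof.  A copy at the places `s+1, …, v` of the continued fraction gives the quadratic polynomial
`(q_{r-1} X - p_{r-1}) (q_s X - p_s) - (q_{s-1} X - p_{s-1}) (q_r X - p_r)`, whose value at `y` is, up to the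
sign, not changed by a common letter and so at most `2 / q_v`; its leading coefficient is not zero.  The
breaks of the descriptions divide the interval `[0, X]` of scales into few intervals, and on each of
them all the numbers have integer polynomials with small coefficients and a very small value
(`Pool.Agent.Run7.h360.CF`).  Möbius images transform these polynomials.  The numbers `u = π^i z^j` and
`v = π^k z^l` satisfy the relation `u^l v^(-j) = π^(il-jk)`, which does not contain `z`; numbers which
satisfy a relation over `ℤ[π]` have a joint measure, uniformly in the relation (helper168,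
`Run7.h168.Uni.jointH_rel`), which comes from the transcendence measure of `π`.  Starting files on this
question compare the digits and algebraic approximations of `ζ(3)` and `ζ(3)/π³`; the continued fractions,
the Möbius images and the uniformity in `w` are new.
-/

set_option autoImplicit false

namespace Pool.Agent.Results.MP_e47f08_nt.SimpleMonomialsUniformInW

open Polynomial

/-- `ζ(w)` -/
noncomputable def zeta (w : ℕ) : ℝ := ∑' k : ℕ, 1 / ((k : ℝ) + 1) ^ w

/-- the partial quotient `a_{i+1}` of `y = [a_0; a_1, a_2, …]` (`none` if the continued fraction has ended) -/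
noncomputable def letter (y : ℝ) (i : ℕ) : Option ℝ := (GenContFract.of y).partDens.get? i

/-- the denominator `q_i` of `[a_0; a_1, …, a_i]` (the last denominator if the continued fraction has
ended) -/
noncomputable def den (y : ℝ) (i : ℕ) : ℝ := (GenContFract.of y).dens i

/-- the places `u+1, …, v` are copied at the price `N`: up to the place `s`, `q_s ≤ e^N q_u`, they are
arbitrary, and from then on the partial quotients are equal to those `s - r` places before -/
def Copied (y : ℝ) (N : ℝ) (u v : ℕ) : Prop :=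
  ∃ r s, r < s ∧ den y s ≤ Real.exp N * den y u ∧ ∀ i, s ≤ i → i < v → letter y i = letter y (i - (s - r))

/-- the partial quotients `a_{i+1}` with `q_i ≤ e^X` are copied at the price `N` on all stretches which
contain none of at most `K` places -/
def Pieces (y : ℝ) (K : ℕ) (N X : ℝ) : Prop :=
  ∃ T : Finset ℕ, T.card ≤ K ∧ ∀ u v, u < v → den y (v - 1) ≤ Real.exp X → (∀ t ∈ T, t ≤ u ∨ v < t) →
    Copied y N u v

/-- the `i`-th digit of `y` after the point in base `b` -/
noncomputable def digit (b : ℕ) (y : ℝ) (i : ℕ) : ℤ := ⌊y * (b : ℝ) ^ i⌋ % (b : ℤ)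

/-- the polynomial `s_1 X + s_2 X^2 + ⋯ + s_L X^L` -/
noncomputable def seqPoly (s : ℕ → ℤ) (L : ℕ) : ℚ[X] := ∑ l ∈ Finset.Icc 1 L, C (s l : ℚ) * X ^ l

/-- there is a nonzero polynomial `P(X, Y)` over `ℚ` of degree `≤ r` in `Y` and `≤ k` in `X` such
that `P(X, S(X))` is divisible by `X^(L+1)`, where `S` is the polynomial of the first `L` terms
of `s` -/
def AlgRelation (s : ℕ → ℤ) (r L k : ℕ) : Prop :=
  ∃ P : ℚ[X][X], P ≠ 0 ∧ P.natDegree ≤ r ∧ (∀ j, (P.coeff j).natDegree ≤ k) ∧
    X ^ (L + 1) ∣ P.eval (seqPoly s L)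

/-- the digits of `y` at the places `u+1, …, v` are the terms at these places of a sequence `s` of base `b`
digits, and the first `v` terms of `s` satisfy an algebraic relation of degree `≤ r` with coefficients of
degree `≤ k + r u` -/
def Described (b : ℕ) (y : ℝ) (r k u v : ℕ) : Prop :=
  ∃ s : ℕ → ℤ, (∀ l, 0 ≤ s l ∧ s l < b) ∧ (∀ l, u < l → l ≤ v → s l = digit b y l) ∧
    AlgRelation s r v (k + r * u)

/-- the first `L` digits of `y` are described on all stretches which contain none of at most `K` places -/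
def PieceByPiece (b : ℕ) (y : ℝ) (r K L k : ℕ) : Prop :=
  ∃ T : Finset ℕ, T.card ≤ K ∧
    ∀ u v, u ≤ v → v ≤ L → (∀ t ∈ T, t ≤ u ∨ v < t) → Described b y r k u v

/-- the fractional part of `y` almost satisfies an algebraic equation -/
def NearAlg (r : ℕ) (N X y : ℝ) : Prop :=
  ∃ P : ℤ[X], P ≠ 0 ∧ P.natDegree ≤ r ∧ (∀ i, |((P.coeff i : ℤ) : ℝ)| ≤ Real.exp N) ∧
    |(aeval (Int.fract y) P : ℝ)| ≤ Real.exp (-X)

/-- `y` is simple up to the scale `X`, with `K` breaks and at the price `N` -/
def Simple (r K : ℕ) (N X y : ℝ) : Prop :=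
  Pieces y K N X ∨
    (∃ b k L : ℕ, 2 ≤ b ∧ (k + 1) * Real.log b ≤ N ∧ X ≤ L * Real.log b ∧ PieceByPiece b y r K L k) ∨
    NearAlg r N X y

/-- `y` is the image of `w` under a Möbius transformation with integral coefficients of height `≤ H`, and
`|y| ≤ H` -/
def Image (H w y : ℝ) : Prop :=
  |y| ≤ H ∧ ∃ a b c d : ℤ, a * d - b * c ≠ 0 ∧ |(a : ℝ)| ≤ H ∧ |(b : ℝ)| ≤ H ∧ |(c : ℝ)| ≤ H ∧ |(d : ℝ)| ≤ H ∧
    y * (c * w + d) = a * w + b

lemma summable_zeta {w : ℕ} (hw : 2 ≤ w) : Summable fun k : ℕ => 1 / ((k : ℝ) + 1) ^ w := by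
  have h := (summable_nat_add_iff 1).2 (Real.summable_one_div_nat_pow.2 (by omega : 1 < w))
  refine h.congr fun k => ?_
  push_cast
  rfl

lemma one_le_zeta {w : ℕ} (hw : 2 ≤ w) : 1 ≤ zeta w := by
  have h := (summable_zeta hw).sum_le_tsum {0} (fun i _ => by positivity)
  simpa [zeta] using h

lemma zeta_le {w : ℕ} (hw : 2 ≤ w) : zeta w ≤ 2 := by
  have h1 : zeta w ≤ zeta 2 := by
    refine (summable_zeta hw).tsum_le_tsum (fun k => ?_) (summable_zeta le_rfl)
    refine one_div_le_one_div_of_le (by positivity) (pow_le_pow_right₀ ?_ hw)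
    have : (0 : ℝ) ≤ k := Nat.cast_nonneg k
    linarith
  have h2 : HasSum (fun k : ℕ => 1 / ((k : ℝ) + 1) ^ 2) (Real.pi ^ 2 / 6) := by
    have h3 := (hasSum_nat_add_iff' 1).2 hasSum_zeta_two
    simpa using h3
  have h3 : zeta 2 = Real.pi ^ 2 / 6 := h2.tsum_eq
  have h4 := Real.pi_lt_d2
  have h5 := Real.pi_pos
  rw [h3] at h1
  nlinarith

/-- **(1)** For all `D`, `r` there is `A ≥ 1` such that for all `w ≥ 2`, all integral points `(i, j)` and `(k, l)`
with coordinates `≤ D` which are not proportional, and all Möbius images `y`, `y'` of height `≤ H` of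
`π^i ζ(w)^j` and of `π^k ζ(w)^l` which are simple up to `X` with `K`, `K'` breaks at the prices `N`, `N'`,
`X ≤ A^(K+K'+1) (N + N' + log H + 1)`.

**(2)** For all `D`, `r ≥ 1` there is `A ≥ 1` such that for all `w ≥ 2` and all integral points `(k, l)` with
coordinates `≤ D` for which `π^k ζ(w)^l = p/q` is rational, `1 ≤ q ≤ M` (for example `(k, l) = (-3, 1)` if
`ζ(3)/π³` is rational), all integral points `(i, j)` with coordinates `≤ D` which are not proportional to
`(k, l)`, and all Möbius images `y` of height `≤ H` of `π^i ζ(w)^j` which are simple up to `X` with `K` breaks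
at the price `N`, `X ≤ A^(K+1) (N + log M + log H + 1)`. -/
theorem result :
    (∀ D r : ℕ, ∃ A : ℝ, 1 ≤ A ∧ ∀ w : ℕ, 2 ≤ w →
      ∀ i j k l : ℤ, |i| ≤ D → |j| ≤ D → |k| ≤ D → |l| ≤ D → i * l - j * k ≠ 0 →
      ∀ (H y y' : ℝ) (K K' : ℕ) (N N' X : ℝ), 1 ≤ H → Image H (Real.pi ^ i * zeta w ^ j) y →
        Image H (Real.pi ^ k * zeta w ^ l) y' → 0 ≤ N → 0 ≤ N' → Simple r K N X y → Simple r K' N' X y' →
        X ≤ A ^ (K + K' + 1) * (N + N' + Real.log H + 1)) ∧
    ∀ D r : ℕ, 1 ≤ r → ∃ A : ℝ, 1 ≤ A ∧ ∀ w : ℕ, 2 ≤ w →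
      ∀ (k l p q : ℤ) (M : ℝ), |k| ≤ D → |l| ≤ D → 1 ≤ q → (q : ℝ) ≤ M → Real.pi ^ k * zeta w ^ l = p / q →
      ∀ i j : ℤ, |i| ≤ D → |j| ≤ D → i * l - j * k ≠ 0 → ∀ (H y : ℝ) (K : ℕ) (N X : ℝ), 1 ≤ H →
        Image H (Real.pi ^ i * zeta w ^ j) y → 0 ≤ N → Simple r K N X y →
        X ≤ A ^ (K + 1) * (N + Real.log M + Real.log H + 1) := by
  have hm : Pool.Agent.TH456.TM.MeasT ((Real.pi : ℝ) : ℂ) :=
    Pool.Agent.R473.JC.measT_three _ (Or.inr (Or.inl rfl))
  have himg : ∀ H H' w y : ℝ, H ≤ H' → Image H w y → Image H' w y := by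
    rintro H H' w y hHH' ⟨h2, a, b, c, d, h3, h4, h5, h6, h7, h8⟩
    exact ⟨h2.trans hHH', a, b, c, d, h3, h4.trans hHH', h5.trans hHH', h6.trans hHH', h7.trans hHH', h8⟩
  have key : ∀ D r : ℕ, ∃ A : ℝ, 1 ≤ A ∧ ∀ w : ℕ, 2 ≤ w →
      ∀ i j k l : ℤ, |i| ≤ D → |j| ≤ D → |k| ≤ D → |l| ≤ D → i * l - j * k ≠ 0 →
      ∀ (H y y' : ℝ) (K K' : ℕ) (N N' X : ℝ), 1 ≤ H → Image H (Real.pi ^ i * zeta w ^ j) y →
        Image H (Real.pi ^ k * zeta w ^ l) y' → 0 ≤ N → 0 ≤ N' → Simple r K N X y → Simple r K' N' X y' →
        X ≤ A ^ (K + K' + 1) * (N + N' + Real.log H + 1) := by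
    intro D r
    obtain ⟨A, hA, h⟩ := Run7.h360.CF.simple_line_unif Real.pi hm D r
    refine ⟨2 * A, by linarith, ?_⟩
    intro w hw i j k l hi hj hk hl hd H y y' K K' N N' X hH hy hy' hN hN' hs hs'
    have hz1 := one_le_zeta hw
    have hz2 := zeta_le hw
    have habs : |zeta w| = zeta w := abs_of_pos (by linarith)
    have h1 := h (zeta w) (2 * H) (by linarith) (by rw [habs]; nlinarith) (by rw [habs]; linarith) i j k l hi hj hk hl
      hd y y' K K' N N' X (himg _ _ _ _ (by linarith) hy) (himg _ _ _ _ (by linarith) hy') hN hN' hs hs'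
    refine h1.trans ?_
    have hl2 : Real.log 2 ≤ 1 := by
      have := Real.log_le_sub_one_of_pos (show (0 : ℝ) < 2 by norm_num)
      linarith
    have hlH : 0 ≤ Real.log H := Real.log_nonneg hH
    rw [Real.log_mul (by norm_num) (by linarith)]
    have h4 : (2 : ℝ) * A ^ (K + K' + 1) ≤ (2 * A) ^ (K + K' + 1) := by
      rw [mul_pow]
      exact mul_le_mul_of_nonneg_right (le_self_pow₀ (by norm_num) (by omega)) (by positivity)
    calc A ^ (K + K' + 1) * (N + N' + (Real.log 2 + Real.log H) + 1)
        ≤ A ^ (K + K' + 1) * (2 * (N + N' + Real.log H + 1)) :=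
          mul_le_mul_of_nonneg_left (by linarith) (by positivity)
      _ = 2 * A ^ (K + K' + 1) * (N + N' + Real.log H + 1) := by ring
      _ ≤ _ := mul_le_mul_of_nonneg_right h4 (by linarith)
  refine ⟨key, ?_⟩
  intro D r hr
  obtain ⟨A, hA, h⟩ := key D r
  have h8 : (0 : ℝ) ≤ Real.log (8 ^ D) := Real.log_nonneg (one_le_pow₀ (by norm_num))
  refine ⟨(1 + Real.log (8 ^ D)) * A, one_le_mul_of_one_le_of_one_le (by linarith) hA, ?_⟩
  intro w hw k l p q M hk hl hq hqM hpq i j hi hj hd H y K N X hH hy hN hs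
  have hq1 : (1 : ℝ) ≤ q := by exact_mod_cast hq
  have hM1 : 1 ≤ M := hq1.trans hqM
  have hz1 := one_le_zeta hw
  have hz2 := zeta_le hw
  have habs : |zeta w| = zeta w := abs_of_pos (by linarith)
  have hpi3 := Real.pi_gt_three
  have hpi4 := Real.pi_le_four
  have habp : |Real.pi| = Real.pi := abs_of_pos (by linarith)
  have hw8 : |Real.pi ^ k * zeta w ^ l| ≤ 8 ^ D := by
    rw [abs_mul, show (8 : ℝ) ^ D = 4 ^ D * 2 ^ D by rw [← mul_pow]; norm_num]
    exact mul_le_mul
      (Run7.h360.CF.abs_zpow_le Real.pi 4 (by norm_num) (by rw [habp]; linarith) (by rw [habp]; exact hpi4) D k hk)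
      (Run7.h360.CF.abs_zpow_le (zeta w) 2 (by norm_num) (by rw [habs]; linarith) (by rw [habs]; exact hz2) D l hl)
      (abs_nonneg _) (by positivity)
  have h81 : (1 : ℝ) ≤ 8 ^ D := one_le_pow₀ (by norm_num)
  have hHH' : H ≤ H * 8 ^ D := le_mul_of_one_le_right (by linarith) h81
  have h1H' : 1 ≤ H * 8 ^ D := hH.trans hHH'
  have hid : Image (H * 8 ^ D) (Real.pi ^ k * zeta w ^ l) (Real.pi ^ k * zeta w ^ l) := by
    refine ⟨hw8.trans (le_mul_of_one_le_left (by positivity) hH), 1, 0, 0, 1, by norm_num, ?_, ?_, ?_, ?_, ?_⟩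
    · push_cast; rw [abs_one]; linarith
    · push_cast; rw [abs_zero]; linarith
    · push_cast; rw [abs_zero]; linarith
    · push_cast; rw [abs_one]; linarith
    · push_cast; ring
  have hsr : Simple r 0 (Real.log M) X (Real.pi ^ k * zeta w ^ l) := by
    rw [hpq]
    exact Run7.h360.CF.simple_of_rat p q hq M hqM r hr 0 X
  have hlM : 0 ≤ Real.log M := Real.log_nonneg hM1
  have h9 := h w hw i j k l hi hj hk hl hd (H * 8 ^ D) y _ K 0 N (Real.log M) X h1H'
    (himg _ _ _ _ hHH' hy) hid hN hlM hs hsr
  refine h9.trans ?_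
  have hlH : 0 ≤ Real.log H := Real.log_nonneg hH
  rw [Real.log_mul (by linarith) (by linarith), add_zero]
  have h4 : (1 + Real.log (8 ^ D)) * A ^ (K + 1) ≤ ((1 + Real.log (8 ^ D)) * A) ^ (K + 1) := by
    rw [mul_pow]
    exact mul_le_mul_of_nonneg_right (le_self_pow₀ (by linarith) (by omega)) (by positivity)
  calc A ^ (K + 1) * (N + Real.log M + (Real.log H + Real.log (8 ^ D)) + 1)
      ≤ A ^ (K + 1) * ((1 + Real.log (8 ^ D)) * (N + Real.log M + Real.log H + 1)) :=
        mul_le_mul_of_nonneg_left (by nlinarith) (by positivity)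
    _ = (1 + Real.log (8 ^ D)) * A ^ (K + 1) * (N + Real.log M + Real.log H + 1) := by ring
    _ ≤ _ := mul_le_mul_of_nonneg_right h4 (by linarith)

end Pool.Agent.Results.MP_e47f08_nt.SimpleMonomialsUniformInW
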