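import Mathlib
import Pool.Agent.Run7.h103.UN.Pair
import Pool.Agent.Run7.h103.PF.Meas
import Pool.Agent.Results.MP_a89d6d_nt.MeasurePiSquaredZetaThree

set_option autoImplicit false

/-!
# `ζ(3) / π³` and `ζ(3)` over `ℚ(π)`: a dichotomy at every scale

At the scale `(M, K)` a real number `w` has a predictable multiple in base `b` if for some integers
`m ≠ 0`, `l`, `q ≥ 1` with `|m|` and `q` at most `H = e ^ (A (K + 1))` the number `(m w + l) / q` is equal,
up to `e ^ (- ε M) / q`, to a number whose first `M` digits in base `b` are predicted by some automaton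
with at most `K` states, which reads the digits, with at most `A log (M / (K + 1))` errors. Digits may
be replaced by the differences between the digits and the letters of a fixed word of linear block
complexity.

Let `a` and `b` be multiplicatively independent bases, for instance `2` and `10`. We prove: for all `d`,
`A` and `ε > 0` there is `R` such that for all `M ≥ R (K + 1)`: `π` has no predictable multiple in base
`a`, or `ζ(3)` has none in base `b`, or

`|P (π) ζ(3) + Q (π)| > e ^ (- ε M)`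

for ALL integer polynomials `P`, `Q` of degree at most `d` with coefficients at most `H`, not both zero.
In particular this holds for the forms `p π³ - q ζ(3)`. So if `ζ(3) / π³` is rational, or more generally
if `ζ(3)` is a rational function of `π` with rational coefficients, then at every such scale `π` has no
predictable multiple in base `a` or `ζ(3)` has none in base `b`.

Proof. In the residue field of the ring of bounded germs of sequences the numbers with predictable
multiples in base `a` and in base `b` generate fields which are linearly disjoint over the field of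
germs of bounded rational numbers (subspace theorem with moving forms). The powers of `π` are linearly
independent over the latter field by the transcendence measure of `π`, so they are linearly independent
over the second field, which contains the coefficients `p_j ζ(3) + q_j`; these do not all vanish
because of the irrationality measure of `ζ(3)`.
-/

namespace Pool.Agent.Results.MP_e47f08_nt.ZetaThreeOverQPi

open Polynomial Pool.Agent.Run7.h103.PF Pool.Agent.Run7.h103.UN

/-- `ζ(3)` -/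
noncomputable def zeta3 : ℝ := ∑' n : ℕ, 1 / ((n : ℝ) + 1) ^ 3

/-- the powers of `π` -/
theorem measure_pi (d : ℕ) : LinearMeasure fun j : Fin (d + 1) => Real.pi ^ (j : ℕ) := by
  obtain ⟨w, c, hc, h⟩ := poly_meas (z := Real.pi) (Or.inr (Or.inl rfl)) d
  obtain ⟨Q, hQ⟩ := exists_nat_ge (1 / c + 1)
  refine ⟨w + 1, max Q 1, fun a ha H hH haH => ?_⟩
  have hH1 : 1 ≤ H := (le_max_right _ _).trans hH
  have hHr : (1 : ℝ) ≤ H := by exact_mod_cast hH1
  have hHQ : 1 / c + 1 ≤ (H : ℝ) := hQ.trans (by exact_mod_cast (le_max_left _ _).trans hH)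
  have hcH : 1 < c * H := by
    have h1 : 1 / c < H := by linarith
    rw [div_lt_iff₀ hc] at h1
    linarith
  set P : ℤ[X] := ∑ j : Fin (d + 1), C (a j) * X ^ (j : ℕ) with hP
  have hcoeff : ∀ n : ℕ, P.coeff n = if h : n < d + 1 then a ⟨n, h⟩ else 0 := by
    intro n
    rw [hP, finsetSum_coeff]
    split_ifs with hn
    · rw [Finset.sum_eq_single (⟨n, hn⟩ : Fin (d + 1))]
      · simp
      · intro j _ hj
        rw [coeff_C_mul, coeff_X_pow, if_neg, mul_zero]
        intro h0
        exact hj (Fin.ext h0.symm)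
      · intro h0
        exact absurd (Finset.mem_univ _) h0
    · refine Finset.sum_eq_zero fun j _ => ?_
      rw [coeff_C_mul, coeff_X_pow, if_neg, mul_zero]
      intro h0
      exact hn (h0 ▸ j.2)
  have h1 := h P (by
    intro h0
    apply ha
    funext j
    have := hcoeff j
    rw [h0, coeff_zero, dif_pos j.2] at this
    exact this.symm) (by
    rw [natDegree_le_iff_coeff_eq_zero]
    intro n hn
    rw [hcoeff, dif_neg (by omega)]) H hHr (by
    intro n
    rw [hcoeff]
    split_ifs with hn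
    · rw [← Int.cast_abs]
      exact_mod_cast haH _
    · simp)
  have h2 : aeval Real.pi P = ∑ j : Fin (d + 1), (a j : ℝ) * Real.pi ^ (j : ℕ) := by
    rw [hP, map_sum]
    refine Finset.sum_congr rfl fun j _ => ?_
    simp
  rw [h2] at h1
  set T : ℝ := |∑ j : Fin (d + 1), (a j : ℝ) * Real.pi ^ (j : ℕ)| with hT
  have h3 := mul_le_mul_of_nonneg_right h1 (by linarith : (0 : ℝ) ≤ H)
  calc (1 : ℝ) < c * H := hcH
    _ ≤ (H : ℝ) ^ w * T * H := h3
    _ = T * (H : ℝ) ^ (w + 1) := by ring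

/-- the measure for `1, π², ζ(3)` -/
theorem measure : LinearMeasure ![1, Real.pi ^ 2, zeta3] := by
  obtain ⟨c, hc, κ, hκ, h⟩ := Pool.Agent.Results.MP_a89d6d_nt.MeasurePiSquaredZetaThree.base
  obtain ⟨w', c', hc', h'⟩ := pi_sq_lin
  obtain ⟨k, hk⟩ := exists_nat_ge κ
  set d : ℝ := min c c' with hd
  have hd0 : 0 < d := lt_min hc hc'
  obtain ⟨Q, hQ⟩ := exists_nat_ge (1 / d + 1)
  refine ⟨k + w' + 1, max Q 1, fun a ha H hH haH => ?_⟩
  have hH1 : 1 ≤ H := (le_max_right _ _).trans hH
  have hHr : (1 : ℝ) ≤ H := by exact_mod_cast hH1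
  have hH0 : (0 : ℝ) < H := by linarith
  have hHQ : 1 / d + 1 ≤ (H : ℝ) := hQ.trans (by exact_mod_cast (le_max_left _ _).trans hH)
  have hdH : 1 < d * H := by
    have : 1 / d < H := by linarith
    rw [div_lt_iff₀ hd0] at this
    linarith
  have habs : ∀ j, |(a j : ℝ)| ≤ H := fun j => by
    rw [← Int.cast_abs]
    exact_mod_cast haH j
  have hsum : ∑ j, (a j : ℝ) * (![1, Real.pi ^ 2, zeta3] : Fin 3 → ℝ) j =
      (a 0 : ℝ) + a 1 * Real.pi ^ 2 + a 2 * zeta3 := by
    rw [Fin.sum_univ_three]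
    simp only [Matrix.cons_val_zero, Matrix.cons_val_one, Matrix.cons_val, mul_one]
  rw [hsum]
  set T : ℝ := |(a 0 : ℝ) + a 1 * Real.pi ^ 2 + a 2 * zeta3| with hT
  have hTd : d ≤ T * (H : ℝ) ^ (k + w') := by
    by_cases ha2 : a 2 = 0
    · have hne : a 0 ≠ 0 ∨ a 1 ≠ 0 := by
        by_contra hcon
        push Not at hcon
        apply ha
        funext j
        fin_cases j
        · exact hcon.1
        · exact hcon.2
        · exact ha2
      have h1 := h' (a 0) (a 1) hne H hHr (habs 0) (habs 1)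
      have h2 : T = |(a 0 : ℝ) + a 1 * Real.pi ^ 2| := by
        rw [hT, ha2]
        simp
      rw [h2]
      calc d ≤ c' := min_le_right _ _
        _ ≤ (H : ℝ) ^ w' * |(a 0 : ℝ) + a 1 * Real.pi ^ 2| := h1
        _ ≤ (H : ℝ) ^ (k + w') * |(a 0 : ℝ) + a 1 * Real.pi ^ 2| := by
            gcongr
            omega
        _ = _ := mul_comm _ _
    · have h1 := h (a 0) (a 1) (a 2) H hHr ha2 (habs 1) (habs 2)
      have h2 : c * (H : ℝ) ^ (-κ) ≤ T := h1
      have h3 : (H : ℝ) ^ (-κ) * (H : ℝ) ^ k ≥ 1 := by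
        rw [← Real.rpow_natCast, ← Real.rpow_add hH0]
        exact Real.one_le_rpow hHr (by linarith)
      calc d ≤ c := min_le_left _ _
        _ = c * 1 := (mul_one c).symm
        _ ≤ c * ((H : ℝ) ^ (-κ) * (H : ℝ) ^ k) := by gcongr
        _ = c * (H : ℝ) ^ (-κ) * (H : ℝ) ^ k := by ring
        _ ≤ T * (H : ℝ) ^ k := by gcongr
        _ ≤ T * (H : ℝ) ^ (k + w') := by
            have : 0 ≤ T := abs_nonneg _
            gcongr
            omega
  calc (1 : ℝ) < d * H := hdH
    _ ≤ T * (H : ℝ) ^ (k + w') * H := by gcongr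
    _ = T * (H : ℝ) ^ (k + w' + 1) := by ring

/-- the measure for `1, ζ(3)` -/
theorem measure_two : LinearMeasure ![1, zeta3] := by
  obtain ⟨w, Q, h⟩ := measure
  refine ⟨w, Q, fun a ha H hH haH => ?_⟩
  have h1 := h ![a 0, 0, a 1] (by
    intro h0
    apply ha
    funext j
    fin_cases j
    · exact congrFun h0 0
    · exact congrFun h0 2) H hH (by
    intro j
    fin_cases j
    · exact haH 0
    · change |(0 : ℤ)| ≤ _
      rw [abs_zero]
      exact Int.natCast_nonneg _
    · exact haH 1)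
  rw [Fin.sum_univ_three] at h1
  rw [Fin.sum_univ_two]
  simp only [Matrix.cons_val_zero, Matrix.cons_val_one, Matrix.cons_val, mul_one, Int.cast_zero,
    zero_mul, add_zero] at h1 ⊢
  exact h1

/-- lower bounds at our scales -/
lemma lower {z : ℝ} (hz : LinearMeasure ![1, z]) (A : ℝ) : ∃ B : ℝ, 0 ≤ B ∧ ∀ (K : ℕ) (p q : ℤ),
    |(p : ℝ)| ≤ Real.exp (A * (K + 1)) → |(q : ℝ)| ≤ Real.exp (A * (K + 1)) → p ≠ 0 →
    Real.exp (-(B * (K + 1))) ≤ |(p : ℝ) * z + q| := by
  obtain ⟨w, Q, h⟩ := hz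
  set D : ℝ := |A| + |(Q : ℝ) + 2| with hD
  have hD0 : 0 ≤ D := by positivity
  refine ⟨w * D, by positivity, fun K p q hp hq hp0 => ?_⟩
  set X : ℝ := Real.exp (|A| * (K + 1)) with hX
  have hX1 : 1 ≤ X := Real.one_le_exp (by positivity)
  have hAX : Real.exp (A * (K + 1)) ≤ X := exp_mono (le_abs_self A) K
  set H : ℕ := Q + ⌈X⌉₊ with hH
  have hH1 : 1 ≤ H := by
    have : 1 ≤ ⌈X⌉₊ := Nat.one_le_ceil_iff.2 (by linarith)
    omega
  have hHX : (H : ℝ) ≤ (Q + 2) * X := by
    have h1 := Nat.ceil_lt_add_one (by linarith : 0 ≤ X)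
    have h2 : (0 : ℝ) ≤ Q := Nat.cast_nonneg Q
    rw [hH]
    push_cast
    nlinarith
  have hb : ∀ y : ℤ, |(y : ℝ)| ≤ Real.exp (A * (K + 1)) → |y| ≤ (H : ℤ) := by
    intro y hy
    have h1 : |(y : ℝ)| ≤ (H : ℝ) := by
      refine hy.trans (hAX.trans ((Nat.le_ceil X).trans ?_))
      rw [hH]
      push_cast
      have h2 : (0 : ℝ) ≤ Q := Nat.cast_nonneg Q
      linarith
    rw [← Int.cast_abs] at h1
    exact_mod_cast h1
  have h1 := h ![q, p] (fun h0 => hp0 (congrFun h0 1)) H (by omega) (by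
    intro j
    fin_cases j
    · exact hb q hq
    · exact hb p hp)
  rw [Fin.sum_univ_two] at h1
  simp only [Matrix.cons_val_zero, Matrix.cons_val_one, mul_one] at h1
  have h2 : (H : ℝ) ≤ Real.exp (D * (K + 1)) := by
    refine hHX.trans ?_
    rw [hD, hX]
    exact exp_const (c := (Q : ℝ) + 2) |A| K
  have h3 : (H : ℝ) ^ w ≤ Real.exp (w * D * (K + 1)) := by
    have : w * D * ((K : ℝ) + 1) = w * (D * (K + 1)) := by ring
    rw [this, Real.exp_nat_mul]
    gcongr
  have h4 := abs_nonneg ((q : ℝ) + p * z)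
  rw [Real.exp_neg, inv_le_iff_one_le_mul₀ (Real.exp_pos _), add_comm ((p : ℝ) * z)]
  exact h1.le.trans (by gcongr)

/-- the main theorem -/
theorem main {a b : ℕ} (ha : 2 ≤ a) (hb : 2 ≤ b) (hab : Independent a b) {C : ℝ} (u v : ℕ → ℤ)
    (hu : SimpleWord a C u) (hv : SimpleWord b C v) (d : ℕ) (A : ℝ) {ε : ℝ} (hε : 0 < ε) :
    ∃ R : ℕ, 1 ≤ R ∧ ∀ M K : ℕ, R * (K + 1) ≤ M → PredictableMultiple a u A ε M K Real.pi →
      PredictableMultiple b v A ε M K zeta3 → ∀ p q : Fin (d + 1) → ℤ, (p ≠ 0 ∨ q ≠ 0) →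
      (∀ j, |(p j : ℝ)| ≤ Real.exp (A * (K + 1))) → (∀ j, |(q j : ℝ)| ≤ Real.exp (A * (K + 1))) →
      Real.exp (-(ε * M)) < |(∑ j, (p j : ℝ) * Real.pi ^ (j : ℕ)) * zeta3 +
        ∑ j, (q j : ℝ) * Real.pi ^ (j : ℕ)| := by
  classical
  obtain ⟨B, hB, hlow⟩ := lower measure_two A
  set A' : ℝ := |A| + 2 + |Real.pi| + |zeta3| + B with hA'
  have hz0 := abs_nonneg zeta3
  have hz1 := abs_nonneg Real.pi
  have hAle := le_abs_self A
  have hA0 := abs_nonneg A
  have hG : ∀ b : ℕ, Pool.Agent.TH796.AL.Ai.GA (Set.range fun _ : Fin 1 => b) ≤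
      Pool.Agent.TH796.AL.Ai.GA {b} := by
    intro b
    refine Subgroup.closure_mono ?_
    rintro v ⟨c, ⟨_, rfl⟩, hv⟩
    exact ⟨_, rfl, hv⟩
  obtain ⟨R, hR⟩ := two_groupsN (fun _ : Fin 1 => a) (fun _ : Fin 1 => b) (fun _ => ha)
    (fun _ => hb) (le_bot_iff.1 ((inf_le_inf (hG _) (hG _)).trans
      (Pool.Agent.TH796.AL.Ai.group_inf ha hb hab).le)) (fun _ => u) (fun _ => v)
    (fun _ => simple_of hu) (fun _ => simple_of hv) (measure_pi d) (d + 1) A' hε
  refine ⟨R + 1, by omega, fun M K hMK h1 h2 p q hpq hp hq => ?_⟩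
  by_contra hcon
  rw [not_lt] at hcon
  have hlog := log_nonneg_of (by omega : 1 ≤ R + 1) hMK
  have hone : (1 : ℝ) ≤ Real.exp (A' * (K + 1)) := Real.one_le_exp (by positivity)
  have hup : Real.exp (A * (K + 1)) ≤ Real.exp (A' * (K + 1)) := exp_mono (by linarith) K
  have hzb : ∀ y : ℝ, |y| ≤ |Real.pi| + |zeta3| → |y| ≤ Real.exp (A' * (K + 1)) := by
    intro y hy
    have g1 := exp_const (c := |Real.pi| + |zeta3|) |A| K
    rw [abs_of_nonneg (add_nonneg hz1 hz0)] at g1
    refine le_trans ?_ (g1.trans (exp_mono (by linarith) K))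
    exact hy.trans (le_mul_of_one_le_right (by positivity) (Real.one_le_exp (by positivity)))
  refine hR M K (le_trans (Nat.mul_le_mul_right _ (Nat.le_succ R)) hMK) ?_ ?_
  · refine ⟨fun _ => Real.pi, mono 0 1,
      fun j => mono (fun _ => ⟨(j : ℕ), by have := j.2; omega⟩) 1,
      fun _ => hzb _ (by linarith), fun _ => near_of (h1.mono_A (by linarith) hlog),
      small_mono (by simpa using hone), fun j => small_mono (by simpa using hone), ?_, fun j => ?_⟩
    · change _ ≤ |value (mono 0 1) _|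
      rw [value_const, Int.cast_one, abs_one, Real.exp_le_one_iff]
      have : 0 ≤ A' * ((K : ℝ) + 1) := by positivity
      linarith
    · change |value (mono 0 1) _ * Real.pi ^ (j : ℕ) - value (mono _ 1) _| ≤ _
      rw [value_const, value_mono]
      simp only [Fin.prod_univ_one, Int.cast_one, one_mul, sub_self, abs_zero]
      exact (Real.exp_pos _).le
  · have hval : ∀ j, value (mono (Pi.single 0 1) (p j) + mono 0 (q j))
        (fun _ : Fin 1 => zeta3) (d := d + 1) = p j * zeta3 + q j := fun j => by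
      rw [value_add, value_X, value_const]
    refine ⟨fun _ => zeta3, fun j => mono (Pi.single 0 1) (p j) + mono 0 (q j),
      fun _ => hzb _ (by linarith), fun _ => near_of (h2.mono_A (by linarith) hlog),
      fun j => (small_add (small_mono (hp j)) (small_mono (hq j))).mono_A (by linarith), ?_, ?_⟩
    · have hdown : Real.exp (-(A' * (K + 1))) ≤ Real.exp (-(B * (K + 1))) := by
        rw [Real.exp_le_exp]
        have : B * ((K : ℝ) + 1) ≤ A' * (K + 1) := by
          gcongr
          linarith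
        linarith
      by_cases hp0 : p = 0
      · have hq0 : q ≠ 0 := hpq.resolve_left (fun h => h hp0)
        obtain ⟨j, hj⟩ := Function.ne_iff.1 hq0
        refine ⟨j, ?_⟩
        change _ ≤ |value (mono (Pi.single 0 1) (p j) + mono 0 (q j)) (fun _ : Fin 1 => zeta3)|
        rw [hval, hp0]
        have g1 : (1 : ℝ) ≤ |(q j : ℝ)| := by
          rw [← Int.cast_abs]
          exact_mod_cast Int.one_le_abs hj
        have g2 : Real.exp (-(A' * (K + 1))) ≤ 1 := by
          rw [Real.exp_le_one_iff]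
          have : 0 ≤ A' * ((K : ℝ) + 1) := by positivity
          linarith
        simp only [Pi.zero_apply, Int.cast_zero, zero_mul, zero_add]
        exact g2.trans g1
      · obtain ⟨j, hj⟩ := Function.ne_iff.1 hp0
        refine ⟨j, ?_⟩
        change _ ≤ |value (mono (Pi.single 0 1) (p j) + mono 0 (q j)) (fun _ : Fin 1 => zeta3)|
        rw [hval]
        exact hdown.trans (hlow K (p j) (q j) (hp j) (hq j) hj)
    · have e1 : ∑ j, value (mono (Pi.single 0 1) (p j) + mono 0 (q j))
          (fun _ : Fin 1 => zeta3) (d := d + 1) * Real.pi ^ (j : ℕ) =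
          (∑ j, (p j : ℝ) * Real.pi ^ (j : ℕ)) * zeta3 + ∑ j, (q j : ℝ) * Real.pi ^ (j : ℕ) := by
        rw [Finset.sum_mul, ← Finset.sum_add_distrib]
        refine Finset.sum_congr rfl fun j _ => ?_
        rw [hval]
        ring
      change |∑ j, value (mono (Pi.single 0 1) (p j) + mono 0 (q j))
          (fun _ : Fin 1 => zeta3) (d := d + 1) * Real.pi ^ (j : ℕ)| ≤ _
      rw [e1]
      exact hcon

/-- (1) Let `a, b ≥ 2` be multiplicatively independent integers and let `u`, `v` be words of linear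
block complexity over `{0, ..., a - 1}` and `{0, ..., b - 1}`. For all `d`, `A` and `ε > 0` there is `R`
such that for all `M`, `K` with `R (K + 1) ≤ M`: if `π` has a predictable multiple in base `a` and
`ζ(3)` has one in base `b`, then `|P (π) ζ(3) + Q (π)| > e ^ (- ε M)` for all integer polynomials
`P = ∑ p_j X ^ j`, `Q = ∑ q_j X ^ j` of degree at most `d` with coefficients at most
`e ^ (A (K + 1))`, not both zero.

(2) If `ζ(3) / π³` is rational, then for all such `a`, `b`, `u`, `v`, `A` and `ε > 0` there is `R` such that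
for all `M`, `K` with `R (K + 1) ≤ M` it is impossible that `π` has a predictable multiple in base `a`
and `ζ(3)` has one in base `b`.

(3) The same if `P (π) ζ(3) = Q (π)` for some integer polynomials `P ≠ 0` and `Q`. -/
theorem result :
    (∀ a b : ℕ, 2 ≤ a → 2 ≤ b → Independent a b → ∀ (C : ℝ) (u v : ℕ → ℤ), SimpleWord a C u →
      SimpleWord b C v → ∀ (d : ℕ) (A ε : ℝ), 0 < ε → ∃ R : ℕ, ∀ M K : ℕ, R * (K + 1) ≤ M →
        PredictableMultiple a u A ε M K Real.pi → PredictableMultiple b v A ε M K zeta3 →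
        ∀ p q : Fin (d + 1) → ℤ, (p ≠ 0 ∨ q ≠ 0) → (∀ j, |(p j : ℝ)| ≤ Real.exp (A * (K + 1))) →
        (∀ j, |(q j : ℝ)| ≤ Real.exp (A * (K + 1))) →
        Real.exp (-(ε * M)) < |(∑ j, (p j : ℝ) * Real.pi ^ (j : ℕ)) * zeta3 +
          ∑ j, (q j : ℝ) * Real.pi ^ (j : ℕ)|) ∧
    ((∃ r : ℚ, zeta3 / Real.pi ^ 3 = r) → ∀ a b : ℕ, 2 ≤ a → 2 ≤ b → Independent a b →
      ∀ (C : ℝ) (u v : ℕ → ℤ), SimpleWord a C u → SimpleWord b C v → ∀ A ε : ℝ, 0 < ε →
      ∃ R : ℕ, ∀ M K : ℕ, R * (K + 1) ≤ M →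
        ¬ (PredictableMultiple a u A ε M K Real.pi ∧ PredictableMultiple b v A ε M K zeta3)) ∧
    (∀ (d : ℕ) (p q : Fin (d + 1) → ℤ), p ≠ 0 →
      (∑ j, (p j : ℝ) * Real.pi ^ (j : ℕ)) * zeta3 = ∑ j, (q j : ℝ) * Real.pi ^ (j : ℕ) →
      ∀ a b : ℕ, 2 ≤ a → 2 ≤ b → Independent a b →
      ∀ (C : ℝ) (u v : ℕ → ℤ), SimpleWord a C u → SimpleWord b C v → ∀ A ε : ℝ, 0 < ε →
      ∃ R : ℕ, ∀ M K : ℕ, R * (K + 1) ≤ M →
        ¬ (PredictableMultiple a u A ε M K Real.pi ∧ PredictableMultiple b v A ε M K zeta3)) := by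
  have part3 : ∀ (d : ℕ) (p q : Fin (d + 1) → ℤ), p ≠ 0 →
      (∑ j, (p j : ℝ) * Real.pi ^ (j : ℕ)) * zeta3 = ∑ j, (q j : ℝ) * Real.pi ^ (j : ℕ) →
      ∀ a b : ℕ, 2 ≤ a → 2 ≤ b → Independent a b →
      ∀ (C : ℝ) (u v : ℕ → ℤ), SimpleWord a C u → SimpleWord b C v → ∀ A ε : ℝ, 0 < ε →
      ∃ R : ℕ, ∀ M K : ℕ, R * (K + 1) ≤ M →
        ¬ (PredictableMultiple a u A ε M K Real.pi ∧ PredictableMultiple b v A ε M K zeta3) := by
    intro d p q hp hrel a b ha hb hab C u v hu hv A ε hε
    have hs0 : 0 ≤ ∑ j, |(p j : ℝ)| := Finset.sum_nonneg fun _ _ => abs_nonneg _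
    have hs1 : 0 ≤ ∑ j, |(q j : ℝ)| := Finset.sum_nonneg fun _ _ => abs_nonneg _
    set A' : ℝ := |A| + (∑ j, |(p j : ℝ)| + ∑ j, |(q j : ℝ)|) with hA'
    have hAA' : A ≤ A' := by
      have := le_abs_self A
      linarith
    obtain ⟨R, hR1, hR⟩ := main ha hb hab u v hu hv d A' hε
    refine ⟨R, fun M K hMK hcon => ?_⟩
    have hlog := log_nonneg_of hR1 hMK
    have hbd : ∀ y : ℝ, |y| ≤ ∑ j, |(p j : ℝ)| + ∑ j, |(q j : ℝ)| →
        |y| ≤ Real.exp (A' * (K + 1)) := by
      intro y hy
      have h2 := exp_const (c := ∑ j, |(p j : ℝ)| + ∑ j, |(q j : ℝ)|) |A| K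
      rw [abs_of_nonneg (add_nonneg hs0 hs1)] at h2
      refine le_trans ?_ h2
      exact hy.trans (le_mul_of_one_le_right (by positivity) (Real.one_le_exp (by positivity)))
    have h1 := hR M K hMK (hcon.1.mono_A hAA' hlog) (hcon.2.mono_A hAA' hlog) p (-q) (Or.inl hp)
      (fun j => hbd _ (by
        have := Finset.single_le_sum (f := fun j => |(p j : ℝ)|) (fun _ _ => abs_nonneg _)
          (Finset.mem_univ j)
        linarith)) (fun j => by
        rw [Pi.neg_apply, Int.cast_neg, abs_neg]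
        exact hbd _ (by
          have := Finset.single_le_sum (f := fun j => |(q j : ℝ)|) (fun _ _ => abs_nonneg _)
            (Finset.mem_univ j)
          linarith))
    have e1 : (∑ j, (p j : ℝ) * Real.pi ^ (j : ℕ)) * zeta3 +
        ∑ j, (((-q) j : ℤ) : ℝ) * Real.pi ^ (j : ℕ) = 0 := by
      rw [hrel, ← Finset.sum_add_distrib]
      refine Finset.sum_eq_zero fun j _ => ?_
      rw [Pi.neg_apply]
      push_cast
      ring
    rw [e1, abs_zero] at h1
    exact absurd h1 (not_lt.2 (Real.exp_pos _).le)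
  refine ⟨?_, ?_, part3⟩
  · intro a b ha hb hab C u v hu hv d A ε hε
    obtain ⟨R, -, hR⟩ := main ha hb hab u v hu hv d A hε
    exact ⟨R, hR⟩
  · rintro ⟨r, hr⟩
    refine part3 3 ![r.den, 0, 0, 0] ![0, 0, 0, r.num] ?_ ?_
    · intro h0
      have := congrFun h0 0
      have h1 : (r.den : ℤ) = 0 := this
      exact r.den_ne_zero (by exact_mod_cast h1)
    · have hpi : Real.pi ^ 3 ≠ 0 := pow_ne_zero _ Real.pi_ne_zero
      have h1 : zeta3 = r * Real.pi ^ 3 := by
        rw [div_eq_iff hpi] at hr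
        exact hr
      have h2 : (r.num : ℝ) = r * r.den := by
        exact_mod_cast (Rat.mul_den_eq_num r).symm
      rw [Fin.sum_univ_four, Fin.sum_univ_four]
      simp
      rw [h1, h2]
      ring

end Pool.Agent.Results.MP_e47f08_nt.ZetaThreeOverQPi
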